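import Pool.Agent.U657.HT.Cod

/-!
# Hindman's theorem for colourings with minimal sets coded by rotations of the circle

A colouring `c` of the natural numbers is regarded as a point of the one-sided shift. A minimal set
`N` of the shift is coded by a rotation of the circle `ℝ / ℤ` if there are a number `α` and a
partition of the circle into finitely many intervals and points, with a colour `F` for each of
them, such that arbitrarily long words `F θ, F (θ + α), …, F (θ + L α)` occur in `N`. Examples are
the Sturmian minimal sets, the minimal sets of interval codings of rotations, and all periodic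
orbits. We consider the colourings `c` for which minimal sets of this kind are contained in the
orbit closure of the colouring `n ↦ c (m n)`, for some `m ≥ 1`. The long pieces of members of `N` in
`c` are at arbitrary places, with arbitrary phases, and `c` is arbitrary elsewhere. Nothing is
assumed on the complexity of the rotation number `α`, of the partition or of the phases.

1. If `A` computes `c` and enumerates the words of `N`, then `c` has a solution computable in `A`.
2. If `N` is the only minimal set in the orbit closure of `n ↦ c (m n)`, then `c` has a solution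
   computable in `c'`.
3. If all minimal sets in the orbit closure of `n ↦ c (m n)` are coded by rotations of the circle or
   weakly mixing, then `c` has a solution computable in `c''`.
4. So Hindman's theorem for the colourings in 3 holds in all `ω`-models of `ACA₀`.

Proof of 1. Let `f` be the right-continuous version of `F` and `T` its least period, and consider
the rotation by `α` on `ℝ / T ℤ`. The words of `N` are the words coded by `f`, and long words
determine their phases up to a small error. Let `b` be a discontinuity of `f`, and let `u`, `v` be
the long words coded by phases immediately to the left and to the right of `b`. The differences of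
the phases of `v` and `u` are an open set `R` of small positive numbers, with `0` in its closure,
and `n α` is in `R` if and only if `u` occurs at `0` and `v` at `n` in a member of `N`. So the
words of `N` allow to enumerate the set of all `n` with `n α` in `R`. If `θ` is the limit of the
phases of the long coded blocks in `n ↦ c (m n)`, extrapolated to the time `0`, then `f` is constant
on `θ + R` if `u` and `v` are long enough. Now the finite sets of numbers all of whose sums `s` have
`s α ∈ R` and the right colour can be extended: there are `y` in a long block with `y α` in a small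
open set `W ⊆ R` near `0`.
-/

set_option autoImplicit false

namespace Pool.Agent.Results.MP_69fea5_lc.CodedMinimalSets

open Pool.Agent.U657.HT Pool.Agent.Y545.HM.St Pool.Agent.Y545.HM
open Pool.Agent.Helper446.Oracle Pool.Agent.Helper446
open Pool.Agent.Helper578.JD (jump)

/-- **Hindman's theorem and minimal sets coded by rotations of the circle.** -/
theorem result :
    -- (1) a minimal set coded by a rotation whose words are enumerable in `A`
    (∀ (A : Set ℕ) (k m : ℕ) (c : ℕ → Fin k) (N : Set (ℕ → Fin k)),
      Computes A (fun n => Part.some (c n).val) → 0 < m → Minimal N → Coded N →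
      N ⊆ OrbitClosure (fun n => c (m * n)) → Enum A (Words N) →
        ∃ X, Solution c X ∧ Computes A (char X)) ∧
    -- (2) the only minimal set is coded by a rotation
    (∀ (A : Set ℕ) (k m : ℕ) (c : ℕ → Fin k) (N : Set (ℕ → Fin k)),
      Computes A (fun n => Part.some (c n).val) → 0 < m →
      (∀ M, Minimal M ∧ M ⊆ OrbitClosure (fun n => c (m * n)) ↔ M = N) → Coded N →
        ∃ X, Solution c X ∧ Computes (jump A) (char X)) ∧
    -- (3) all minimal sets are coded by rotations or weakly mixing
    (∀ (A : Set ℕ) (k m : ℕ) (c : ℕ → Fin k),
      Computes A (fun n => Part.some (c n).val) → 0 < m →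
      (∀ N, Minimal N → N ⊆ OrbitClosure (fun n => c (m * n)) → Coded N ∨ WeaklyMixing N) →
        ∃ X, Solution c X ∧ Computes (jump (jump A)) (char X)) ∧
    -- (4) `ω`-models
    ∀ I : Set (Set ℕ), Ideal I → ACA I → HT I fun _ c => ∃ m, 0 < m ∧
      ∀ N, Minimal N → N ⊆ OrbitClosure (fun n => c (m * n)) → Coded N ∨ WeaklyMixing N := by
  have red1 : ∀ A : Set ℕ, Dec (jump A) A := fun A =>
    ⟨Pool.Agent.R603.HCB.bridge.2 (Pool.Agent.R603.HCB.rein_jump
      (Pool.Agent.R603.HCB.bridge.1 (Dec.rfl (A := A)).1)),
      Pool.Agent.R603.HCB.bridge.2 (Pool.Agent.R603.HCB.rein_jump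
      (Pool.Agent.R603.HCB.bridge.1 (Dec.rfl (A := A)).2))⟩
  have mul : ∀ {A : Set ℕ} {k : ℕ} {c : ℕ → Fin k} (m : ℕ), Gr A c → Gr A fun n => c (m * n) :=
    fun m hc => hc.pre (g := fun x : ℕ => m * x) (by fun_prop)
  have p1 : ∀ (A : Set ℕ) (k m : ℕ) (c : ℕ → Fin k) (N : Set (ℕ → Fin k)),
      Computes A (fun n => Part.some (c n).val) → 0 < m → Minimal N → Coded N →
      N ⊆ OrbitClosure (fun n => c (m * n)) → Enum A (Words N) →
        ∃ X, Solution c X ∧ Computes A (char X) :=
    fun A k m c N hc hm hN hcod hNc hW => dilate hm (sol_of_codedSet (c := fun n => c (m * n))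
      (computes_col.2 (mul m (computes_col.1 hc))) hN hNc hW hcod)
  have p3 : ∀ (A : Set ℕ) (k m : ℕ) (c : ℕ → Fin k),
      Computes A (fun n => Part.some (c n).val) → 0 < m →
      (∀ N, Minimal N → N ⊆ OrbitClosure (fun n => c (m * n)) → Coded N ∨ WeaklyMixing N) →
        ∃ X, Solution c X ∧ Computes (jump (jump A)) (char X) := by
    intro A k m c hc hm hw
    have hc' := computes_col.1 hc
    obtain ⟨M, hM, hMc, -, hW⟩ := greedy (fun n => c (m * n)) [] (by
      rintro ⟨L, hL⟩
      obtain ⟨j, -, w, hw, -⟩ := hL 0
      simp at hw)
    have hcA : Computes (jump (jump A)) (fun n => Part.some (c n).val) :=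
      computes_col.2 ((hc'.lift (red1 A)).lift (red1 _))
    rcases hw M hM hMc with h | h
    · exact p1 _ k m c M hcA hm hM h hMc (enum_iff.2 (hW A (mul m hc')))
    · exact sol_of_wm hcA hm hM h hMc (enum_iff.2 (hW A (mul m hc')))
  refine ⟨p1, ?_, p3, ?_⟩
  · intro A k m c N hc hm hN hcod
    have hc' := computes_col.1 hc
    obtain ⟨hmin, hsub⟩ := (hN N).2 rfl
    exact p1 _ k m c N (computes_col.2 (hc'.lift (red1 A))) hm hmin hcod hsub
      (enum_iff.2 (words_unique (mul m hc') hN))
  · rintro I hI hJ k c ⟨A, hA, hc⟩ ⟨m, hm, h⟩
    obtain ⟨X, hX, hX2⟩ := p3 A k m c hc hm h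
    exact ⟨X, hI.2.1 _ (Pool.Agent.R603.HCB.jump_mem hJ hA 2) X hX2, hX⟩

end Pool.Agent.Results.MP_69fea5_lc.CodedMinimalSets
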