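import Pool.Agent.U657.HT.Multi

/-!
# Hindman's theorem for colourings with long blocks coded by rotations

We consider colourings `c` of the natural numbers for which `n ↦ c (m n)`, for some `m ≥ 1`, has
arbitrarily long blocks in which the colour of `n` is determined by the symbol at `n` in a member of
a weakly mixing minimal set `M` of a full shift and by the phase at `n` of a rotation of a compact
abelian group. The blocks are at arbitrary places, with arbitrary phases, and there is no condition
on the rest of the colouring. If `M` is a fixed point, the colours in the blocks are given by the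
phases alone.

1. Let `K` be a compact abelian group, `α ∈ K`, and let `R` be an open set such that there are `n`
   with `n α ∈ R` arbitrarily close to `0`. Suppose that, for each compact `C ⊆ R`, the colour is
   given by a function `f` of the symbols of a member of `M` for those `n` in long blocks which have
   `n α ∈ C`. If `A` computes `c` and enumerates the words of `M` and the set of all `n` with
   `n α ∈ R`, then `c` has a solution of Hindman's theorem which is computable in `A`.
2. Let `α₁, …, α_r` be real numbers and suppose that in the blocks the colour is determined by the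
   symbol in a member of `M` and by the answers to the questions whether the fractional parts of
   `θ_s + j α_s` are less than `t_s`, for `s = 1, …, r`. The phases `θ_s`, the bounds `t_s` and the
   way in which the colour depends on the answers may be different in different blocks. If `A`
   computes `c` and enumerates the words of `M` and the rational numbers below and above each
   `α_s`, then `c` has a solution computable in `A`. For example, all the intervals of an interval
   coding of a rotation may be given in this way. The numbers `α_s` may be rational, and they may be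
   dependent.
3. So Hindman's theorem for the colourings in 2 holds in all `ω`-models of `RCA₀` which contain
   the numbers `α_s` and an enumeration of the words of `M`.

No jump is needed although neither the places nor the phases of the coded blocks are known.

Proof of 1. The finite sets of numbers all of whose nonempty sums `s` have `s α ∈ R`, together with
a word `u` of `M` with `f (u s) = i` for all of them, can be extended: choose a small open set
`W ⊆ R` near `0` with `s α + W ⊆ R`. The return times of `u` in `M` contain long intervals with
bounded gaps, and since weakly mixing minimal sets are disjoint from rotations there are in each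
long interval times `y` at which `u` occurs in the given member of `M` and `y α ∈ W`. Proof of 2.
In the limit of the blocks the answers, extrapolated to the time `0`, are constant on the two sides
of the limit phase. A pigeonhole argument gives signs such that the `n α_s` are simultaneously close
to integers, on the sides prescribed by the signs, for arbitrarily small errors.
-/

set_option autoImplicit false

namespace Pool.Agent.Results.MP_69fea5_lc.RotationCodings

open Pool.Agent.U657.HT Pool.Agent.Y545.HM.St Pool.Agent.Y545.HM
open Pool.Agent.Helper446.Oracle Pool.Agent.Helper446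

/-- **Hindman's theorem for colourings with long blocks coded by rotations.** -/
theorem result :
    -- (1) rotations of compact abelian groups
    (∀ (A : Set ℕ) (k k' m : ℕ) (c : ℕ → Fin k) (M : Set (ℕ → Fin k')) (K : Type) [AddCommGroup K]
      [TopologicalSpace K] [IsTopologicalAddGroup K] [CompactSpace K] (α : K) (R : Set K)
      (f : Fin k' → Fin k),
      Computes A (fun n => Part.some (c n).val) → 0 < m →
      Minimal M → WeaklyMixing M → Enum A (Words M) →
      IsOpen R → (0 : K) ∈ closure (R ∩ Set.range fun n : ℕ => n • α) →
      Enum A {n : ℕ | n • α ∈ R} →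
      (∀ C ⊆ R, IsCompact C → ∀ L, ∃ n, ∃ w ∈ M, ∀ j < L, (n + j) • α ∈ C →
        c (m * (n + j)) = f (w j)) →
        ∃ X, Solution c X ∧ Computes A (char X)) ∧
    -- (2) rotations of the circle
    (∀ (A : Set ℕ) (k k' m r : ℕ) (c : ℕ → Fin k) (M : Set (ℕ → Fin k')) (α : Fin r → ℝ),
      Computes A (fun n => Part.some (c n).val) → 0 < m →
      Minimal M → WeaklyMixing M → Enum A (Words M) →
      (∀ s, 0 ≤ α s ∧ Enum A (Below (α s)) ∧ Enum A (Above (α s))) →
      (∀ L, ∃ n : ℕ, ∃ w ∈ M, ∃ (θ t : Fin r → ℝ) (Φ : Fin k' → (Fin r → Bool) → Fin k),
        ∀ j < L, c (m * (n + j)) = Φ (w j) fun s => decide (Int.fract (θ s + j * α s) < t s)) →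
        ∃ X, Solution c X ∧ Computes A (char X)) ∧
    -- (3) `ω`-models
    ∀ (I : Set (Set ℕ)) (k' r : ℕ) (M : Set (ℕ → Fin k')) (α : Fin r → ℝ), Ideal I →
      Minimal M → WeaklyMixing M → (∀ s, 0 ≤ α s) →
      (∃ B ∈ I, Enum B (Words M) ∧ ∀ s, Enum B (Below (α s)) ∧ Enum B (Above (α s))) →
      HT I fun k c => ∃ m, 0 < m ∧
        ∀ L, ∃ n : ℕ, ∃ w ∈ M, ∃ (θ t : Fin r → ℝ) (Φ : Fin k' → (Fin r → Bool) → Fin k),
          ∀ j < L, c (m * (n + j)) =
            Φ (w j) fun s => decide (Int.fract (θ s + j * α s) < t s) := by
  have mul : ∀ {A : Set ℕ} {k : ℕ} {c : ℕ → Fin k} (m : ℕ),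
      Computes A (fun n => Part.some (c n).val) →
      Computes A (fun n => Part.some (c (m * n)).val) := fun m hc =>
    computes_col.2 ((computes_col.1 hc).pre (g := fun x : ℕ => m * x) (by fun_prop))
  have p2 : ∀ (A : Set ℕ) (k k' m r : ℕ) (c : ℕ → Fin k) (M : Set (ℕ → Fin k')) (α : Fin r → ℝ),
      Computes A (fun n => Part.some (c n).val) → 0 < m →
      Minimal M → WeaklyMixing M → Enum A (Words M) →
      (∀ s, 0 ≤ α s ∧ Enum A (Below (α s)) ∧ Enum A (Above (α s))) →
      (∀ L, ∃ n : ℕ, ∃ w ∈ M, ∃ (θ t : Fin r → ℝ) (Φ : Fin k' → (Fin r → Bool) → Fin k),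
        ∀ j < L, c (m * (n + j)) = Φ (w j) fun s => decide (Int.fract (θ s + j * α s) < t s)) →
        ∃ X, Solution c X ∧ Computes A (char X) :=
    fun A k k' m r c M α hc hm hM hw hWM hα h =>
      dilate hm (multi (c := fun n => c (m * n)) (mul m hc) hM hw hWM (fun s => (hα s).1)
        (fun s => (hα s).2.1) (fun s => (hα s).2.2) h)
  refine ⟨fun A k k' m c M K _ _ _ _ α R f hc hm hM hw hWM hR h0 hE h =>
    dilate hm (engine (c := fun n => c (m * n)) (mul m hc) hM hw hWM hR h0 hE f h), p2, ?_⟩
  rintro I k' r M α hI hM hw h0 ⟨B, hB, hWM, hα⟩ k c ⟨A, hA, hc⟩ ⟨m, hm, h⟩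
  have lift : ∀ {S : Set ℕ}, Enum B S → Enum (Join A B) S := fun hS =>
    enum_iff.2 (re_lift (enum_iff.1 hS) dec_right)
  obtain ⟨X, hX, hX2⟩ := p2 (Join A B) k k' m r c M α
    (computes_col.2 ((computes_col.1 hc).lift dec_left)) hm hM hw (lift hWM)
    (fun s => ⟨h0 s, lift (hα s).1, lift (hα s).2⟩) h
  exact ⟨X, hI.2.1 _ (hI.2.2 A hA B hB) X hX2, hX⟩

end Pool.Agent.Results.MP_69fea5_lc.RotationCodings
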