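import Pool.Agent.U657.HT.Low4

/-!
# A lower bound for Hindman's theorem for colourings with minimal sets coded by rotations

If a colouring `c` computable in `A` has exactly one minimal set in its orbit closure and this is
coded by a rotation of the circle, then `c` has a solution of Hindman's theorem computable in the
jump of `A` (result `CodedMinimalSets`), and `A` suffices if it enumerates the words of the minimal
set. Here we show that without the words the jump cannot be replaced by `A`, nor by any set which
is low over `A`.

1. If `B'` is computable in `A'`, then there is a colouring `c` with two colours, computable in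
   `A`, with exactly one minimal set in its orbit closure, which is coded by a rotation of the
   circle, such that no solution of Hindman's theorem for `c` is computable in `B`.
2. So Hindman's theorem for the colourings with exactly one minimal set, coded by a rotation of the
   circle, fails in all `ω`-models of `RCA₀` all of whose sets are computable in one low set, for
   instance in the computable sets and in the `ω`-models of `WKL₀` given by the low basis theorem,
   although it holds in all `ω`-models of `ACA₀`.

Proof. The colour of `n` is determined by the half circle which contains `n α_k`, where `k` is the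
integral part of the square root of `n` and `α_0, α_1, …` is a sequence of rational numbers,
computable in `A`, which converges to an irrational number `α`. The colouring has arbitrarily long
blocks of slope close to `α`, and all minimal sets of its orbit closure contain the coding of
`1 / 4 + n α`. If all finite sums of `X` have the same colour, then for all `y < y'` in `X` and
almost all `k` the four points `0, y α_k, y' α_k, (y + y') α_k` lie in a translate of a half circle
(consider the sums with another sum `z` of large elements for which `z` and `z + y + y'` are in the
same block). The number `α` is computable in `A'` and is found by a finite extension construction: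
for each set `X` enumerable in `B` which contains two suitable large numbers `y`, `y'` the next
interval for `α` is chosen such that `y α` is near `1 / 2` and `y' α` is near `1 / 4` modulo `1`; the
jump of `B` knows whether there are such numbers. The limit lemma gives the sequence of the `α_k`.
-/

set_option autoImplicit false

namespace Pool.Agent.Results.MP_69fea5_lc.RotationLowerBound

open Pool.Agent.U657.HT Pool.Agent.Y545.HM.St Pool.Agent.Y545.HM
open Pool.Agent.Helper446.Oracle Pool.Agent.Helper446
open Pool.Agent.Helper578.JD (jump)

/-- **A lower bound for Hindman's theorem for colourings coded by rotations.** -/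
theorem result :
    -- (1) no solution computable in a set which is low over `A`
    (∀ A B : Set ℕ, Computes (jump A) (char (jump B)) →
      ∃ c : ℕ → Fin 2, Computes A (fun n => Part.some (c n).val) ∧
        (∃ N, (∀ M, Minimal M ∧ M ⊆ OrbitClosure c ↔ M = N) ∧ Coded N) ∧
        ¬ ∃ X, Solution c X ∧ Computes B (char X)) ∧
    -- (2) `ω`-models below a low set
    ∀ I : Set (Set ℕ), Ideal I → ∀ B : Set ℕ, (∀ X ∈ I, Computes B (char X)) →
      Computes (jump ∅) (char (jump B)) →
      ¬ HT I fun _ c => ∃ N, (∀ M, Minimal M ∧ M ⊆ OrbitClosure c ↔ M = N) ∧ Coded N := by
  have p1 : ∀ A B : Set ℕ, Computes (jump A) (char (jump B)) →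
      ∃ c : ℕ → Fin 2, Computes A (fun n => Part.some (c n).val) ∧
        (∃ N, (∀ M, Minimal M ∧ M ⊆ OrbitClosure c ↔ M = N) ∧ Coded N) ∧
        ¬ ∃ X, Solution c X ∧ Computes B (char X) := by
    intro A B hBA
    obtain ⟨c, hc, hN, hX⟩ := low (computes_set.1 hBA)
    exact ⟨c, computes_col.2 hc, hN, hX⟩
  refine ⟨p1, ?_⟩
  intro I hI B hB hlow hHT
  obtain ⟨c, hc, hN, hX⟩ := p1 ∅ B hlow
  obtain ⟨A, hA⟩ := hI.1
  have hd : Dec A ∅ := ⟨(REIn.of_re (RE.const False)).of_eq fun n => by simp,
    (REIn.of_re (RE.const True)).of_eq fun n => by simp⟩
  obtain ⟨X, hXI, hXs⟩ := hHT 2 c ⟨A, hA, computes_col.2 ((computes_col.1 hc).lift hd)⟩ hN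
  exact hX ⟨X, hXs, hB X hXI⟩

end Pool.Agent.Results.MP_69fea5_lc.RotationLowerBound
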