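import Pool.Agent.U657.HT.Gre

/-!
# Hindman's theorem for colourings with weakly mixing minimal sets

A colouring `c` of the natural numbers is regarded as a point of the one-sided shift. Let `M` be a
minimal set of the shift which is weakly mixing and is contained in the orbit closure of the
colouring `n ↦ c (m n)`, for some `m ≥ 1`. For example, `m` may be the number of points of a finite
minimal set in the orbit closure of `c`, and `M` a fixed point. (A minimal set is weakly mixing if
and only if it has no rotation of a compact group as a nontrivial factor.)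

1. If `A` computes `c` and enumerates the words of `M`, then `c` has a solution computable in `A`.
2. Every colouring `c` whose orbit closure contains a periodic point, in particular every colouring
   with countable orbit closure, has a solution computable in `c`.
3. If `n ↦ c (m n)` has only one minimal set in its orbit closure and this is weakly mixing, `c` has
   a solution computable in `c'`.
4. If all minimal sets in the orbit closure of `n ↦ c (m n)` are weakly mixing, `c` has a solution
   computable in `c''`.
5. So Hindman's theorem for the colourings in 2 holds in all `ω`-models of `RCA₀`, and for the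
   colourings in 4 in all `ω`-models of `ACA₀`.

(If `c` itself is a recurrent point, a solution computable in `c` is found at once. The difficulty is
that the long pieces of members of `M` in `c` are at arbitrary places.)

Proof of 1. Let `u` be a word of `M`. By Furstenberg's intersection lemma the set of all `y` such
that `u` occurs at `0` and at `y` in some member of `M` contains long intervals with bounded gaps.
So some such `y` is a place where `u` occurs in the (long pieces of members of `M` in the) colouring
`n ↦ c (m n)`. This allows to add `y` to a finite solution on whose sums the word `u` has the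
colour `i`; the search for `y` only needs an enumeration of the words of `M`. For 4 a minimal set is
found by forbidding words as long as this is possible.
-/

set_option autoImplicit false

namespace Pool.Agent.Results.MP_69fea5_lc.WeaklyMixing

open Pool.Agent.U657.HT Pool.Agent.Y545.HM.St Pool.Agent.Y545.HM
open Pool.Agent.Helper446.Oracle Pool.Agent.Helper446 Encodable
open Pool.Agent.Helper578.JD (jump)

/-- The words of the minimal set, if it is the only one. -/
theorem words_unique {A : Set ℕ} {k : ℕ} {c : ℕ → Fin k} (hc : Gr A c) {M : Set (ℕ → Fin k)}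
    (hM : ∀ M', Minimal M' ∧ M' ⊆ OrbitClosure c ↔ M' = M) : REIn (jump A) (· ∈ Words M) := by
  obtain ⟨hmin, hsub⟩ := (hM M).2 rfl
  have h1 : ∀ v : List ℕ, (∃ g ∈ M, Oc g v 0) ↔ Em c [v] := by
    intro v
    constructor
    · rintro ⟨g, hg, hv⟩
      by_contra hno
      obtain ⟨M', h1, h2, h3, -⟩ := greedy c [v] hno
      have h4 : M' = M := (hM M').1 ⟨h1, h2⟩
      subst h4
      exact h3 g hg v (List.mem_singleton.2 rfl) 0 hv
    · rintro ⟨L, hL⟩
      obtain ⟨g, hg⟩ := hmin.nonempty
      obtain ⟨n, hn⟩ := oc_iff.1 (hsub hg) (L + v.length)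
      obtain ⟨j, hj, w, hw, hw2⟩ := hL n
      rw [List.mem_singleton] at hw
      subst hw
      refine ⟨_, hmin.shifts hg j, fun x hx => ?_⟩
      rw [hw2 x hx, zero_add, ← hn (j + x) (by omega), add_assoc]
  have h2 : REIn (jump A) fun i : ℕ => ∃ v : List ℕ, encode v = i ∧ Em c [v] := by
    refine REIn.ex (S := fun (i : ℕ) (v : List ℕ) => encode v = i ∧ Em c [v]) (REIn.and ?_ ?_)
    · exact REIn.of_re (RE.eq (Computable.encode.comp Computable.snd) (by fun_prop))
    · exact (re_em hc).comp (f := fun x : ℕ × List ℕ => [x.2])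
        (Primrec.list_cons.comp Primrec.snd (Primrec.const [])).to_comp
  refine h2.of_eq fun i => ?_
  constructor
  · rintro ⟨v, rfl, hv⟩
    obtain ⟨g, hg, hgv⟩ := (h1 v).2 hv
    refine ⟨g, hg, v.length, ?_⟩
    congr 1
    refine List.ext_getElem? fun x => ?_
    rcases lt_or_ge x v.length with hx | hx
    · rw [hgv x hx, List.getElem?_map, List.getElem?_range hx, zero_add]
      rfl
    · rw [List.getElem?_eq_none hx, List.getElem?_eq_none (by simpa using hx)]
  · rintro ⟨g, hg, L, rfl⟩
    refine ⟨_, rfl, (h1 _).1 ⟨g, hg, fun x hx => ?_⟩⟩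
    have hx' : x < L := by simpa using hx
    rw [List.getElem?_map, List.getElem?_range hx', zero_add]
    rfl

/-- **Hindman's theorem and weakly mixing minimal sets.** -/
theorem result :
    -- (1) a weakly mixing minimal set whose words are enumerable in `A`
    (∀ (A : Set ℕ) (k m : ℕ) (c : ℕ → Fin k) (M : Set (ℕ → Fin k)),
      Computes A (fun n => Part.some (c n).val) → 0 < m → Minimal M → WeaklyMixing M →
      M ⊆ OrbitClosure (fun n => c (m * n)) → Enum A (Words M) →
        ∃ X, Solution c X ∧ Computes A (char X)) ∧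
    -- (2) a periodic point in the orbit closure, or countable orbit closure
    (∀ (A : Set ℕ) (k : ℕ) (c : ℕ → Fin k), Computes A (fun n => Part.some (c n).val) →
      ((∃ g ∈ OrbitClosure c, ∃ m, 0 < m ∧ ∀ x, g (x + m) = g x) ∨ (OrbitClosure c).Countable) →
        ∃ X, Solution c X ∧ Computes A (char X)) ∧
    -- (3) the only minimal set is weakly mixing
    (∀ (A : Set ℕ) (k m : ℕ) (c : ℕ → Fin k) (M : Set (ℕ → Fin k)),
      Computes A (fun n => Part.some (c n).val) → 0 < m →
      (∀ M', Minimal M' ∧ M' ⊆ OrbitClosure (fun n => c (m * n)) ↔ M' = M) → WeaklyMixing M →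
        ∃ X, Solution c X ∧ Computes (jump A) (char X)) ∧
    -- (4) all minimal sets are weakly mixing
    (∀ (A : Set ℕ) (k m : ℕ) (c : ℕ → Fin k),
      Computes A (fun n => Part.some (c n).val) → 0 < m →
      (∀ M, Minimal M → M ⊆ OrbitClosure (fun n => c (m * n)) → WeaklyMixing M) →
        ∃ X, Solution c X ∧ Computes (jump (jump A)) (char X)) ∧
    -- (5) `ω`-models
    ∀ I : Set (Set ℕ), Ideal I →
      HT I (fun _ c => (∃ g ∈ OrbitClosure c, ∃ m, 0 < m ∧ ∀ x, g (x + m) = g x) ∨
        (OrbitClosure c).Countable) ∧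
      (ACA I → HT I fun _ c => ∃ m, 0 < m ∧
        ∀ M, Minimal M → M ⊆ OrbitClosure (fun n => c (m * n)) → WeaklyMixing M) := by
  have red1 : ∀ A : Set ℕ, Dec (jump A) A := fun A =>
    ⟨Pool.Agent.R603.HCB.bridge.2 (Pool.Agent.R603.HCB.rein_jump
      (Pool.Agent.R603.HCB.bridge.1 (Dec.rfl (A := A)).1)),
      Pool.Agent.R603.HCB.bridge.2 (Pool.Agent.R603.HCB.rein_jump
      (Pool.Agent.R603.HCB.bridge.1 (Dec.rfl (A := A)).2))⟩
  have mul : ∀ {A : Set ℕ} {k : ℕ} {c : ℕ → Fin k} (m : ℕ), Gr A c → Gr A fun n => c (m * n) :=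
    fun m hc => hc.pre (g := fun x : ℕ => m * x) (by fun_prop)
  have p1 : ∀ (A : Set ℕ) (k m : ℕ) (c : ℕ → Fin k) (M : Set (ℕ → Fin k)),
      Computes A (fun n => Part.some (c n).val) → 0 < m → Minimal M → WeaklyMixing M →
      M ⊆ OrbitClosure (fun n => c (m * n)) → Enum A (Words M) →
        ∃ X, Solution c X ∧ Computes A (char X) :=
    fun A k m c M hc hm hM hw hMc hW => sol_of_wm hc hm hM hw hMc hW
  have p3 : ∀ (A : Set ℕ) (k : ℕ) (c : ℕ → Fin k), Computes A (fun n => Part.some (c n).val) →
      ((∃ g ∈ OrbitClosure c, ∃ m, 0 < m ∧ ∀ x, g (x + m) = g x) ∨ (OrbitClosure c).Countable) →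
        ∃ X, Solution c X ∧ Computes A (char X) := by
    intro A k c hc h
    obtain ⟨m, hm, hb⟩ : ∃ m, 0 < m ∧ ∀ L, ∃ n, ∀ j < L, c (n + j + m) = c (n + j) := by
      rcases h with h | h
      · exact blocks_iff.2 h
      · exact blocks_of_countable h
    obtain ⟨g, hg, hr⟩ := rec_of_blocks hm hb
    exact sol_of_rec hc (comp_periodic hm hg) hr
  have p5 : ∀ (A : Set ℕ) (k m : ℕ) (c : ℕ → Fin k),
      Computes A (fun n => Part.some (c n).val) → 0 < m →
      (∀ M, Minimal M → M ⊆ OrbitClosure (fun n => c (m * n)) → WeaklyMixing M) →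
        ∃ X, Solution c X ∧ Computes (jump (jump A)) (char X) := by
    intro A k m c hc hm hw
    have hc' := computes_col.1 hc
    obtain ⟨M, hM, hMc, -, hW⟩ := greedy (fun n => c (m * n)) [] (by
      rintro ⟨L, hL⟩
      obtain ⟨j, -, w, hw, -⟩ := hL 0
      simp at hw)
    exact p1 _ k m c M (computes_col.2 ((hc'.lift (red1 A)).lift (red1 _))) hm hM (hw M hM hMc) hMc
      (enum_iff.2 (hW A (mul m hc')))
  refine ⟨p1, p3, ?_, p5, fun I hI => ⟨?_, ?_⟩⟩
  · intro A k m c M hc hm hM hw
    have hc' := computes_col.1 hc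
    obtain ⟨hmin, hsub⟩ := (hM M).2 rfl
    exact p1 _ k m c M (computes_col.2 (hc'.lift (red1 A))) hm hmin hw hsub
      (enum_iff.2 (words_unique (mul m hc') hM))
  · rintro k c ⟨A, hA, hc⟩ h
    obtain ⟨X, hX, hX2⟩ := p3 A k c hc h
    exact ⟨X, hI.2.1 A hA X hX2, hX⟩
  · rintro hJ k c ⟨A, hA, hc⟩ ⟨m, hm, h⟩
    obtain ⟨X, hX, hX2⟩ := p5 A k m c hc hm h
    exact ⟨X, hI.2.1 _ (Pool.Agent.R603.HCB.jump_mem hJ hA 2) X hX2, hX⟩

end Pool.Agent.Results.MP_69fea5_lc.WeaklyMixing
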